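import Pool.Agent.MWI.StmtsT

/-!
# Row NO1
-/

namespace Pool.Agent.MWI.H49

open Pool.Agent.Helper14_MV Pool.Agent.Helper2_MV Pool.Agent.MWF Pool.Agent.MWI

variable {β : FIC}

/-- a letter which occurs once -/
theorem once (H : Iso3 β) {l v : List ℕ} (h : RR β l v) {c : ℕ} (hc : l.count c = 1) :
    v.count c = 1 := by
  have h1 := h.filter (fun i => i == c)
  have e : ∀ w : List ℕ, w.filter (fun i => i == c) = List.replicate (w.count c) c := by
    intro w
    exact List.filter_beq c
  rw [e, e, hc] at h1
  have h2 := h1.sub (fun _ => [1])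
  have e2 : ∀ j : ℕ, (List.replicate j c).flatMap (fun _ => [1]) = List.replicate j 1 := by
    intro j
    induction j with
    | zero => rfl
    | succ j ih => rw [List.replicate_succ, List.flatMap_cons, ih]; rfl
  rw [e2, e2] at h2
  have h3 : RR β [0, 1, 0] ([0] ++ List.replicate (v.count c) 1 ++ [0]) := ctx [0] [0] h2
  have h4 := congrArg List.length (H _ h3)
  simp at h4
  omega

/-- the words equivalent to `t x²` -/
theorem form (H : Iso3 β) {v : List ℕ} (h : RR β [1, 0, 0] v) :
    ∃ a b : ℕ, v = List.replicate a 0 ++ 1 :: List.replicate b 0 := by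
  have hc : ∀ c ∈ v, c = 0 ∨ c = 1 := by
    intro c hc
    by_contra hcon
    rw [not_or] at hcon
    exact h.content H (c := c) (by simp [hcon.1, hcon.2]) hc
  have h1 : v.count 1 = 1 := once H h (by decide)
  have hm : 1 ∈ v := List.count_pos_iff.1 (by omega)
  obtain ⟨s, t, rfl⟩ := List.append_of_mem hm
  rw [List.count_append, List.count_cons_self] at h1
  have hs : 1 ∉ s := fun hh => by
    have := List.count_pos_iff.2 hh
    omega
  have ht : 1 ∉ t := fun hh => by
    have := List.count_pos_iff.2 hh
    omega
  refine ⟨s.length, t.length, ?_⟩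
  have e1 : s = List.replicate s.length 0 := by
    rw [List.eq_replicate_iff]
    refine ⟨rfl, fun c hcs => ?_⟩
    rcases hc c (List.mem_append_left _ hcs) with e | e
    · exact e
    · exact absurd (e ▸ hcs) hs
  have e2 : t = List.replicate t.length 0 := by
    rw [List.eq_replicate_iff]
    refine ⟨rfl, fun c hcs => ?_⟩
    rcases hc c (List.mem_append_right _ (List.mem_cons_of_mem _ hcs)) with e | e
    · exact e
    · exact absurd (e ▸ hcs) ht
  rw [← e1, ← e2]

/-- iteration -/
theorem iter {a b : ℕ} (h : RR β [1, 0, 0] (List.replicate a 0 ++ 1 :: List.replicate (b + 2) 0))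
    (j : ℕ) :
    RR β [1, 0, 0] (List.replicate (j * a) 0 ++ 1 :: List.replicate (2 + j * b) 0) := by
  induction j with
  | zero =>
    have e : List.replicate (0 * a) 0 ++ 1 :: List.replicate (2 + 0 * b) 0 = [1, 0, 0] := by
      simp [List.replicate]
    rw [e]
    exact RR.refl _
  | succ j ih =>
    have h1 := ctx (List.replicate (j * a) 0) (List.replicate (j * b) 0) h
    have e1 : List.replicate (j * a) 0 ++ [1, 0, 0] ++ List.replicate (j * b) 0 =
        List.replicate (j * a) 0 ++ 1 :: List.replicate (2 + j * b) 0 := by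
      rw [List.replicate_add 2 (j * b)]
      simp [List.replicate]
    have e2 : List.replicate (j * a) 0 ++ (List.replicate a 0 ++ 1 :: List.replicate (b + 2) 0) ++
        List.replicate (j * b) 0 =
        List.replicate ((j + 1) * a) 0 ++ 1 :: List.replicate (2 + (j + 1) * b) 0 := by
      have e3 : 2 + (j + 1) * b = (b + 2) + j * b := by ring
      have e4 : (j + 1) * a = j * a + a := by ring
      rw [e3, e4, List.replicate_add (b + 2) (j * b), List.replicate_add (j * a) a]
      simp only [List.append_assoc, List.cons_append]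
    rw [e1, e2] at h1
    exact rtr ih h1

/-- **NO1** -/
theorem no1 : No1Stmt := by
  intro n β hT hO
  have hn := hT.pos
  have H := hT.iso
  -- a word which does not begin with `1`
  obtain ⟨v, hv, hv1⟩ : ∃ v, RR β [1, 0, 0] v ∧ ¬ ∃ v', v = 1 :: v' := by
    by_contra hcon
    push Not at hcon
    apply hO
    intro v hv
    obtain ⟨v', hv'⟩ := hcon v hv
    exact ⟨v', hv'⟩
  obtain ⟨a, b, rfl⟩ := form H hv
  have ha : 1 ≤ a := by
    by_contra hcon
    have : a = 0 := by omega
    subst this
    exact hv1 ⟨List.replicate b 0, rfl⟩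
  have h11 : ¬ (a = 1 ∧ b = 1) := by
    rintro ⟨rfl, rfl⟩
    have h1 := H _ hv.symm
    exact absurd h1 (by decide)
  have h10 : ¬ (a = 1 ∧ b = 0) := by
    rintro ⟨rfl, rfl⟩
    have h1 := iso_ab H (a := 0) (b := 1) (by decide) hv.symm
    exact absurd h1 (by decide)
  -- we may assume that `b ≥ 2`
  obtain ⟨b', hb'⟩ : ∃ b', RR β [1, 0, 0]
      (List.replicate a 0 ++ 1 :: List.replicate (b' + 2) 0) := by
    by_cases hb2 : 2 ≤ b
    · refine ⟨b - 2, ?_⟩
      rw [Nat.sub_add_cancel hb2]
      exact hv
    · by_cases hb1 : b = 1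
      · subst hb1
        have ha2 : 2 ≤ a := by
          by_contra hcon
          exact h11 ⟨by omega, rfl⟩
        refine ⟨n - 1, rtr hv ?_⟩
        have h1 := ctx (List.replicate (a - 2) 0) [] hT.rn
        have e1 : List.replicate (a - 2) 0 ++ [0, 0, 1, 0] ++ [] =
            List.replicate a 0 ++ 1 :: List.replicate 1 0 := by
          have e : a = a - 2 + 2 := by omega
          rw [e, List.replicate_add (a - 2) 2, ← e]
          simp [List.replicate]
        have e2 : List.replicate (a - 2) 0 ++ ([0, 0, 1] ++ List.replicate (n + 1) 0) ++ [] =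
            List.replicate a 0 ++ 1 :: List.replicate (n - 1 + 2) 0 := by
          have e : a = a - 2 + 2 := by omega
          have e' : n - 1 + 2 = n + 1 := by omega
          rw [e', e, List.replicate_add (a - 2) 2, ← e]
          simp [List.replicate]
        rw [e1, e2] at h1
        exact h1
      · have hb0 : b = 0 := by omega
        subst hb0
        refine ⟨2 * n - 2, ?_⟩
        have h1 := ctx [] (List.replicate (2 * n) 0) hv
        have e1 : ([] : List ℕ) ++ [1, 0, 0] ++ List.replicate (2 * n) 0 =
            [1] ++ List.replicate (2 + 2 * n) 0 ++ [] := by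
          rw [List.replicate_add 2 (2 * n)]
          simp [List.replicate]
        have e2 : ([] : List ℕ) ++ (List.replicate a 0 ++ 1 :: List.replicate 0 0) ++
            List.replicate (2 * n) 0 =
            List.replicate a 0 ++ 1 :: List.replicate (2 * n - 2 + 2) 0 := by
          have e' : 2 * n - 2 + 2 = 2 * n := by omega
          rw [e']
          simp
        rw [e1, e2] at h1
        have h2 : RR β (List.replicate 2 0) (List.replicate (2 + 2 * n) 0) :=
          per_eq' hT.per (a := 2) (b := 2 + 2 * n) (y := 0) le_rfl (by omega) (u := 2) (v := 0)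
            (by ring)
        have h3 := ctx [1] [] h2
        have e3 : [1] ++ List.replicate 2 0 ++ [] = [1, 0, 0] := rfl
        rw [e3] at h3
        exact rtr h3 h1
  -- iterate
  have h1 := iter hb' (2 * n)
  refine ⟨2 * n * a, ?_, ?_⟩
  · calc 2 = 2 * 1 * 1 := by ring
      _ ≤ 2 * n * a := by
        apply Nat.mul_le_mul _ ha
        omega
  · refine rtr h1 ?_
    have h2 : RR β (List.replicate (2 + 2 * n * b') 0) (List.replicate 2 0) :=
      per_eq' hT.per (a := 2 + 2 * n * b') (b := 2) (y := 0) (by omega) le_rfl (u := 0)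
        (v := 2 * b') (by ring)
    have h3 := ctx (List.replicate (2 * n * a) 0 ++ [1]) [] h2
    have e1 : List.replicate (2 * n * a) 0 ++ [1] ++ List.replicate (2 + 2 * n * b') 0 ++ [] =
        List.replicate (2 * n * a) 0 ++ 1 :: List.replicate (2 + 2 * n * b') 0 := by
      simp
    have e2 : List.replicate (2 * n * a) 0 ++ [1] ++ List.replicate 2 0 ++ [] =
        List.replicate (2 * n * a) 0 ++ [1, 0, 0] := by
      simp [List.replicate]
    rw [e1, e2] at h3
    exact h3

end Pool.Agent.MWI.H49
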